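import Mathlib

set_option autoImplicit false

namespace Pool.Agent.Results.MP_b7f7f4_co.BlockPattern

open Finset

/-- `L` is a latin square of order `n`: `L r c` is the symbol in row `r` and column `c`. -/
def IsLatin {n : ℕ} (L : Fin n → Fin n → Fin n) : Prop :=
  (∀ r, Function.Bijective (L r)) ∧ ∀ c, Function.Bijective fun r => L r c

/-- `θ` is a `k`-weight of `L`: an integer weighting of the cells whose sum over every row, every
column and every symbol equals `k`. -/
def IsWeight {n : ℕ} (L : Fin n → Fin n → Fin n) (k : ℤ) (θ : Fin n → Fin n → ℤ) : Prop :=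
  (∀ r, ∑ c, θ r c = k) ∧ (∀ c, ∑ r, θ r c = k) ∧
    ∀ s, (∑ r, ∑ c, if L r c = s then θ r c else 0) = k

/-- `L` has an odd-weight, i.e. a `k`-weight for some odd `k`. -/
def HasOddWeight {n : ℕ} (L : Fin n → Fin n → Fin n) : Prop :=
  ∃ (k : ℤ) (θ : Fin n → Fin n → ℤ), Odd k ∧ IsWeight L k θ

/-- The set of symbols in the block of rows `{r | ρ r = i}` and columns `{c | κ c = j}`. -/
def blockSymbols {n N : ℕ} (L : Fin n → Fin n → Fin n) (ρ κ : Fin n → ZMod N) (i j : ZMod N) :
    Set (Fin n) := {s | ∃ r c, ρ r = i ∧ κ c = j ∧ L r c = s}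

/-- `L` has the odd-block pattern of the Cayley table of `ℤ_{2m}`, up to permuting rows, columns
and symbols: rows and columns are partitioned into blocks indexed by `ℤ_{2m}`, all of the same odd
size `q`, every block contains exactly `q` symbols (so it is a latin subsquare), and two blocks
`(i,j)`, `(i',j')` have the same symbol set exactly when `i + j = i' + j'`. -/
def HasOddBlockPattern {n : ℕ} (L : Fin n → Fin n → Fin n) (m : ℕ) : Prop :=
  ∃ (q : ℕ) (ρ κ : Fin n → ZMod (2 * m)), Odd q ∧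
    (∀ i, {r | ρ r = i}.ncard = q) ∧ (∀ j, {c | κ c = j}.ncard = q) ∧
    (∀ i j, (blockSymbols L ρ κ i j).ncard = q) ∧
    ∀ i j i' j', blockSymbols L ρ κ i j = blockSymbols L ρ κ i' j' ↔ i + j = i' + j'

section dual

variable {n : ℕ} (L : Fin n → Fin n → Fin n)

/-- The incidence map from weightings to (row sums, column sums, symbol sums). -/
def Theta : (Fin n × Fin n → ℤ) →+ (Fin n → ℤ) × (Fin n → ℤ) × (Fin n → ℤ) :=
  AddMonoidHom.mk' (fun θ => (fun r => ∑ c, θ (r, c), fun c => ∑ r, θ (r, c),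
    fun s => ∑ r, ∑ c, if L r c = s then θ (r, c) else 0)) (by
      intro a b
      refine Prod.ext ?_ (Prod.ext ?_ ?_)
      · funext r
        simp [Finset.sum_add_distrib]
      · funext c
        simp [Finset.sum_add_distrib]
      · funext s
        simp only [Pi.add_apply, Prod.snd_add]
        rw [← Finset.sum_add_distrib]
        refine Finset.sum_congr rfl fun r _ => ?_
        rw [← Finset.sum_add_distrib]
        refine Finset.sum_congr rfl fun c _ => ?_
        split_ifs <;> simp)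

theorem exists_dual (h : ¬ HasOddWeight L) :
    ∃ f g k : Fin n → AddCircle (1 : ℚ), (∀ r c, f r + g c + k (L r c) = 0) ∧
      ∑ r, f r + ∑ c, g c + ∑ s, k s ≠ 0 := by
  have hnot : ((1, 1, 1) : (Fin n → ℤ) × (Fin n → ℤ) × (Fin n → ℤ)) ∉ (Theta L).range := by
    rintro ⟨θ, hθ⟩
    apply h
    refine ⟨1, fun r c => θ (r, c), odd_one, ?_, ?_, ?_⟩
    · intro r
      exact congrFun (congrArg Prod.fst hθ) r
    · intro c
      exact congrFun (congrArg (fun x => x.2.1) hθ) c
    · intro s
      exact congrFun (congrArg (fun x => x.2.2) hθ) s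
  have hne : (QuotientAddGroup.mk' (Theta L).range) (1, 1, 1) ≠ 0 := by
    intro h0
    exact hnot ((QuotientAddGroup.eq_zero_iff _).1 h0)
  obtain ⟨χ, hχ⟩ := CharacterModule.exists_character_apply_ne_zero_of_ne_zero hne
  let χ' : ((Fin n → ℤ) × (Fin n → ℤ) × (Fin n → ℤ)) ⧸ (Theta L).range →+ AddCircle (1 : ℚ) := χ
  let ψ : (Fin n → ℤ) × (Fin n → ℤ) × (Fin n → ℤ) →+ AddCircle (1 : ℚ) :=
    χ'.comp (QuotientAddGroup.mk' (Theta L).range)
  have hψ1 : ψ (1, 1, 1) ≠ 0 := hχ
  have hψ0 : ∀ θ, ψ (Theta L θ) = 0 := by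
    intro θ
    have : (QuotientAddGroup.mk' (Theta L).range) (Theta L θ) = 0 :=
      (QuotientAddGroup.eq_zero_iff _).2 ⟨θ, rfl⟩
    show χ' ((QuotientAddGroup.mk' (Theta L).range) (Theta L θ)) = 0
    rw [this, map_zero]
  refine ⟨fun r => ψ (Pi.single r 1, 0, 0), fun c => ψ (0, Pi.single c 1, 0),
    fun s => ψ (0, 0, Pi.single s 1), ?_, ?_⟩
  · intro r c
    rw [← map_add, ← map_add, ← hψ0 (Pi.single (r, c) 1)]
    congr 1
    refine Prod.ext ?_ (Prod.ext ?_ ?_)
    · funext r'
      simp only [Prod.fst_add, Prod.snd_add, add_zero, Theta, AddMonoidHom.mk'_apply]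
      by_cases hr : r' = r
      · subst hr
        simp [Pi.single_apply, Prod.ext_iff]
      · simp [Pi.single_apply, Prod.ext_iff, hr]
    · funext c'
      simp only [Prod.fst_add, Prod.snd_add, add_zero, zero_add, Theta, AddMonoidHom.mk'_apply]
      by_cases hc : c' = c
      · subst hc
        simp [Pi.single_apply, Prod.ext_iff]
      · simp [Pi.single_apply, Prod.ext_iff, hc]
    · funext s'
      simp only [Prod.snd_add, zero_add, Theta, AddMonoidHom.mk'_apply]
      have : ∀ r' c', (if L r' c' = s' then (Pi.single (r, c) (1 : ℤ) : Fin n × Fin n → ℤ) (r', c')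
          else 0) = if r' = r then (if c' = c then (if L r c = s' then 1 else 0) else 0) else 0 := by
        intro r' c'
        by_cases hr : r' = r
        · by_cases hc : c' = c
          · subst hr; subst hc; simp
          · simp [Pi.single_apply, hc]
        · simp [Pi.single_apply, hr]
      simp only [this]
      simp only [Finset.sum_ite_irrel, Finset.sum_ite_eq', Finset.mem_univ, if_true,
        Finset.sum_const_zero]
      simp only [Pi.single_apply]
      by_cases hs : s' = L r c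
      · simp [hs]
      · simp [hs, Ne.symm hs]
  · rw [← map_sum, ← map_sum, ← map_sum, ← map_add, ← map_add]
    convert hψ1 using 2
    refine Prod.ext ?_ (Prod.ext ?_ ?_)
    · simp only [Prod.fst_add, Prod.fst_sum, Finset.sum_const_zero, add_zero]
      funext r
      simp [Pi.single_apply]
    · simp only [Prod.fst_add, Prod.snd_add, Prod.fst_sum, Prod.snd_sum, Finset.sum_const_zero,
        add_zero, zero_add]
      funext r
      simp [Pi.single_apply]
    · simp only [Prod.snd_add, Prod.snd_sum, Finset.sum_const_zero, zero_add]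
      funext r
      simp [Pi.single_apply]

end dual

/-- A finite subset of `ℚ/ℤ` closed under addition and negation and containing `0` is the image of
an injective homomorphism from `ℤ_N`. -/
theorem exists_zmod (K : Finset (AddCircle (1 : ℚ))) (h0 : (0 : AddCircle (1 : ℚ)) ∈ K)
    (hadd : ∀ x ∈ K, ∀ y ∈ K, x + y ∈ K) (hneg : ∀ x ∈ K, -x ∈ K) :
    ∃ (N : ℕ) (_ : NeZero N) (ψ : ZMod N →+ AddCircle (1 : ℚ)), Function.Injective ψ ∧
      ∀ x, x ∈ K ↔ ∃ z, ψ z = x := by
  classical
  have hNpos : 0 < K.card := Finset.card_pos.2 ⟨0, h0⟩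
  have : NeZero K.card := ⟨hNpos.ne'⟩
  have hNq : ((K.card : ℕ) : ℚ) ≠ 0 := by exact_mod_cast hNpos.ne'
  let 𝒦 : AddSubgroup (AddCircle (1 : ℚ)) :=
    { carrier := K
      add_mem' := fun {a b} ha hb => hadd a ha b hb
      zero_mem' := h0
      neg_mem' := fun {a} ha => hneg a ha }
  have hcard : Nat.card 𝒦 = K.card := by
    show Nat.card (K : Set (AddCircle (1 : ℚ))) = K.card
    simp
  have htors : ∀ x ∈ K, K.card • x = 0 := by
    intro x hx
    have h1 : Nat.card 𝒦 • (⟨x, hx⟩ : 𝒦) = 0 := card_nsmul_eq_zero'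
    rw [hcard] at h1
    exact congrArg Subtype.val h1
  let u : AddCircle (1 : ℚ) := ((1 / (K.card : ℚ) : ℚ) : AddCircle (1 : ℚ))
  have hzu : ∀ a : ℤ, a • u = ((a / (K.card : ℚ) : ℚ) : AddCircle (1 : ℚ)) := by
    intro a
    show a • ((1 / (K.card : ℚ) : ℚ) : AddCircle (1 : ℚ)) = _
    rw [← AddCircle.coe_zsmul]
    congr 1
    rw [zsmul_eq_mul]; ring
  have hu0 : zmultiplesHom (AddCircle (1 : ℚ)) u ((K.card : ℕ) : ℤ) = 0 := by
    rw [zmultiplesHom_apply, hzu]
    rw [AddCircle.coe_eq_zero_iff]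
    refine ⟨1, ?_⟩
    push_cast
    rw [div_self hNq]; simp
  let ψ : ZMod K.card →+ AddCircle (1 : ℚ) := ZMod.lift K.card ⟨zmultiplesHom _ u, hu0⟩
  have hψ : ∀ a : ℤ, ψ (a : ZMod K.card) = a • u := by
    intro a
    show ZMod.lift K.card ⟨zmultiplesHom _ u, hu0⟩ (a : ZMod K.card) = _
    rw [ZMod.lift_coe]
    rfl
  have hinj : Function.Injective ψ := by
    rw [injective_iff_map_eq_zero]
    intro z hz
    obtain ⟨a, rfl⟩ := ZMod.intCast_surjective z
    rw [hψ, hzu, AddCircle.coe_eq_zero_iff] at hz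
    obtain ⟨k, hk⟩ := hz
    rw [ZMod.intCast_zmod_eq_zero_iff_dvd]
    refine ⟨k, ?_⟩
    have : (a : ℚ) = K.card * k := by
      field_simp at hk
      simp at hk
      linarith
    exact_mod_cast this
  have hsub : K ⊆ Finset.univ.image ψ := by
    intro x hx
    obtain ⟨t, rfl⟩ := QuotientAddGroup.mk_surjective x
    have h1 := htors _ hx
    have h2 : ((K.card • t : ℚ) : AddCircle (1 : ℚ)) = 0 := by
      rw [AddCircle.coe_nsmul]; exact h1
    rw [AddCircle.coe_eq_zero_iff] at h2
    obtain ⟨k, hk⟩ := h2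
    refine Finset.mem_image.2 ⟨(k : ZMod K.card), Finset.mem_univ _, ?_⟩
    rw [hψ, hzu]
    have : t = k / (K.card : ℚ) := by
      rw [eq_div_iff hNq]
      rw [nsmul_eq_mul] at hk
      simp at hk
      linarith
    rw [this]
  have heq : K = Finset.univ.image ψ := by
    apply Finset.eq_of_subset_of_card_le hsub
    rw [Finset.card_image_of_injective _ hinj, Finset.card_univ, ZMod.card]
  refine ⟨K.card, inferInstance, ψ, hinj, fun x => ?_⟩
  have hx' := Finset.ext_iff.1 heq x
  rw [hx']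
  constructor
  · intro hx
    obtain ⟨z, -, hz⟩ := Finset.mem_image.1 hx
    exact ⟨z, hz⟩
  · rintro ⟨z, rfl⟩
    exact Finset.mem_image_of_mem _ (Finset.mem_univ z)

/-- The homotopy to a cyclic group. -/
theorem exists_homotopy {n : ℕ} (L : Fin n → Fin n → Fin n) (hL : IsLatin L)
    (h : ¬ HasOddWeight L) :
    ∃ (N : ℕ) (_ : NeZero N) (q : ℕ) (ρ κ σ : Fin n → ZMod N), 0 < q ∧
      (∀ i, (univ.filter fun r => ρ r = i).card = q) ∧
      (∀ i, (univ.filter fun r => κ r = i).card = q) ∧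
      (∀ i, (univ.filter fun r => σ r = i).card = q) ∧
      (∀ r c, σ (L r c) = ρ r + κ c) ∧ q • (∑ z : ZMod N, z) ≠ 0 := by
  classical
  obtain ⟨f, g, k, hfgk, hsum⟩ := exists_dual L h
  have hn : 0 < n := by
    rcases Nat.eq_zero_or_pos n with rfl | hn
    · exact absurd (by simp) hsum
    · exact hn
  let o : Fin n := ⟨0, hn⟩
  set F : Fin n → AddCircle (1 : ℚ) := fun r => f r - f o with hF
  set Γ : Fin n → AddCircle (1 : ℚ) := fun c => g c - g o with hΓ
  set Sg : Fin n → AddCircle (1 : ℚ) := fun s => -k s - f o - g o with hSg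
  have hrel : ∀ r c, Sg (L r c) = F r + Γ c := by
    intro r c
    have := hfgk r c
    have h1 : k (L r c) = -(f r + g c) := eq_neg_of_add_eq_zero_right this
    simp only [hF, hΓ, hSg, h1]
    abel
  have hFo : F o = 0 := by simp [hF]
  have hΓo : Γ o = 0 := by simp [hΓ]
  let cnt : (Fin n → AddCircle (1 : ℚ)) → AddCircle (1 : ℚ) → ℕ :=
    fun φ x => (univ.filter fun r => φ r = x).card
  have hR : ∀ r x, cnt Γ x = cnt Sg (F r + x) := by
    intro r x
    refine Finset.card_bijective (L r) (hL.1 r) fun c => ?_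
    simp only [Finset.mem_filter, Finset.mem_univ, true_and, hrel]
    constructor
    · intro hc; rw [hc]
    · intro hc; exact add_left_cancel hc
  have hC : ∀ c x, cnt F x = cnt Sg (x + Γ c) := by
    intro c x
    refine Finset.card_bijective (fun r => L r c) (hL.2 c) fun r => ?_
    simp only [Finset.mem_filter, Finset.mem_univ, true_and, hrel]
    constructor
    · intro hc; rw [hc]
    · intro hc; exact add_right_cancel hc
  have hGS : ∀ x, cnt Γ x = cnt Sg x := fun x => by
    have := hR o x; rwa [hFo, zero_add] at this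
  have hFS : ∀ x, cnt F x = cnt Sg x := fun x => by
    have := hC o x; rwa [hΓo, add_zero] at this
  let K : Finset (AddCircle (1 : ℚ)) := univ.image F
  have hK : ∀ x, x ∈ K ↔ 0 < cnt F x := by
    intro x
    show x ∈ univ.image F ↔ 0 < (univ.filter fun r => F r = x).card
    rw [Finset.card_pos]
    constructor
    · intro hx
      obtain ⟨r, -, hr⟩ := Finset.mem_image.1 hx
      exact ⟨r, Finset.mem_filter.2 ⟨Finset.mem_univ r, hr⟩⟩
    · rintro ⟨r, hr⟩
      exact Finset.mem_image.2 ⟨r, Finset.mem_univ r, (Finset.mem_filter.1 hr).2⟩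
  have hcntK : ∀ x ∈ K, cnt F x = cnt F 0 := by
    intro x hx
    obtain ⟨r, -, hr⟩ := Finset.mem_image.1 hx
    have h1 := hR r 0
    rw [add_zero, hr] at h1
    rw [hFS x, hFS 0, ← hGS 0, h1]
  have h0K : (0 : AddCircle (1 : ℚ)) ∈ K := Finset.mem_image.2 ⟨o, Finset.mem_univ o, hFo⟩
  have hadd : ∀ x ∈ K, ∀ y ∈ K, x + y ∈ K := by
    intro x hx y hy
    obtain ⟨r, -, hr⟩ := Finset.mem_image.1 hx
    rw [hK] at hy ⊢
    rw [hFS, ← hr, ← hR r y, hGS, ← hFS]
    exact hy
  have hneg : ∀ x ∈ K, -x ∈ K := by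
    intro x hx
    obtain ⟨r, -, hr⟩ := Finset.mem_image.1 hx
    rw [hK]
    rw [hFS, ← hGS, hR r (-x), hr, add_neg_cancel, ← hFS, ← hK]
    exact h0K
  obtain ⟨N, hN, ψ, hψinj, hψK⟩ := exists_zmod K h0K hadd hneg
  have hq : 0 < cnt F 0 := (hK 0).1 h0K
  have memF : ∀ r, ∃ z, ψ z = F r := fun r =>
    (hψK _).1 (Finset.mem_image_of_mem _ (Finset.mem_univ r))
  have memΓ : ∀ c, ∃ z, ψ z = Γ c := by
    intro c
    rw [← hψK, hK, hFS, ← hGS]
    exact Finset.card_pos.2 ⟨c, Finset.mem_filter.2 ⟨Finset.mem_univ c, rfl⟩⟩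
  have memSg : ∀ s, ∃ z, ψ z = Sg s := by
    intro s
    rw [← hψK, hK, hFS]
    exact Finset.card_pos.2 ⟨s, Finset.mem_filter.2 ⟨Finset.mem_univ s, rfl⟩⟩
  choose ρ hρ using memF
  choose κ hκ using memΓ
  choose σ hσ using memSg
  have cntρ : ∀ i, (univ.filter fun r => ρ r = i).card = cnt F 0 := by
    intro i
    rw [← hcntK (ψ i) ((hψK _).2 ⟨i, rfl⟩)]
    show _ = (univ.filter fun r => F r = ψ i).card
    congr 1
    apply Finset.filter_congr
    intro r _
    rw [← hρ r]
    exact hψinj.eq_iff.symm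
  have cntκ : ∀ i, (univ.filter fun r => κ r = i).card = cnt F 0 := by
    intro i
    rw [← hcntK (ψ i) ((hψK _).2 ⟨i, rfl⟩), hFS, ← hGS]
    show _ = (univ.filter fun r => Γ r = ψ i).card
    congr 1
    apply Finset.filter_congr
    intro r _
    rw [← hκ r]
    exact hψinj.eq_iff.symm
  have cntσ : ∀ i, (univ.filter fun r => σ r = i).card = cnt F 0 := by
    intro i
    rw [← hcntK (ψ i) ((hψK _).2 ⟨i, rfl⟩), hFS]
    show _ = (univ.filter fun r => Sg r = ψ i).card
    congr 1
    apply Finset.filter_congr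
    intro r _
    rw [← hσ r]
    exact hψinj.eq_iff.symm
  have sumlem : ∀ φ : Fin n → ZMod N, (∀ i, (univ.filter fun r => φ r = i).card = cnt F 0) →
      ∑ r, φ r = cnt F 0 • ∑ z : ZMod N, z := by
    intro φ hφ
    rw [← Finset.sum_fiberwise (s := univ) (g := φ) (f := φ), Finset.smul_sum]
    refine Finset.sum_congr rfl fun z _ => ?_
    rw [Finset.sum_congr rfl (g := fun _ => z) (fun r hr => (Finset.mem_filter.1 hr).2),
      Finset.sum_const, hφ z]
  refine ⟨N, hN, cnt F 0, ρ, κ, σ, hq, cntρ, cntκ, cntσ, ?_, ?_⟩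
  · intro r c
    apply hψinj
    rw [map_add, hρ, hκ, hσ, hrel]
  · intro hzero
    apply hsum
    have e1 : ∑ r, F r = 0 := by
      rw [← Finset.sum_congr rfl fun r _ => hρ r, ← map_sum, sumlem ρ cntρ, hzero, map_zero]
    have e2 : ∑ r, Γ r = 0 := by
      rw [← Finset.sum_congr rfl fun r _ => hκ r, ← map_sum, sumlem κ cntκ, hzero, map_zero]
    have e3 : ∑ r, Sg r = 0 := by
      rw [← Finset.sum_congr rfl fun r _ => hσ r, ← map_sum, sumlem σ cntσ, hzero, map_zero]
    simp only [hF, hΓ, hSg, Finset.sum_sub_distrib, Finset.sum_neg_distrib, Finset.sum_const,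
      Finset.card_univ, Fintype.card_fin] at e1 e2 e3
    have e1' : ∑ r, f r = n • f o := sub_eq_zero.1 e1
    have e2' : ∑ r, g r = n • g o := sub_eq_zero.1 e2
    have e3' : ∑ s, k s = - (n • f o) - n • g o := by
      have : -∑ s, k s = n • f o + n • g o := by
        have h5 := sub_eq_zero.1 e3
        rw [sub_eq_iff_eq_add] at h5
        rw [h5]; abel
      rw [← neg_neg (∑ s, k s), this]; abel
    rw [e1', e2', e3']
    abel

/-- **MP_b7f7f4_co, Q1, answered affirmatively.**  Every latin square without an odd-weight has the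
odd-block pattern of `ℤ_{2m}` for some `m ≥ 1`. -/
theorem result {n : ℕ} (L : Fin n → Fin n → Fin n) (hL : IsLatin L) (h : ¬ HasOddWeight L) :
    ∃ m : ℕ, 1 ≤ m ∧ HasOddBlockPattern L m := by
  classical
  obtain ⟨N, hN, q, ρ, κ, σ, hq, hρ, hκ, hσ, hrel, hne⟩ := exists_homotopy L hL h
  have h2 : (2 : ℕ) • (∑ z : ZMod N, z) = 0 := by
    have e : ∑ z : ZMod N, z = ∑ z : ZMod N, -z :=
      (Equiv.sum_comp (Equiv.neg (ZMod N)) (fun z => z)).symm
    rw [two_nsmul]
    conv_lhs => rw [e]
    nth_rewrite 2 [← e]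
    rw [Finset.sum_neg_distrib, neg_add_cancel]
  have hodd : Odd q := by
    rw [← Nat.not_even_iff_odd]
    rintro ⟨t, ht⟩
    apply hne
    rw [ht, ← two_mul, mul_comm, mul_nsmul', h2, nsmul_zero]
  have heven : Even N := by
    rw [← Nat.not_odd_iff_even]
    rintro ⟨t, ht⟩
    apply hne
    have hN' : N • (∑ z : ZMod N, z) = 0 := by
      rw [nsmul_eq_mul, ZMod.natCast_self, zero_mul]
    have h3 : (2 * t + 1) • (∑ z : ZMod N, z) = 0 := by rw [← ht]; exact hN'
    rw [add_nsmul, mul_comm, mul_nsmul', h2, nsmul_zero, zero_add, one_nsmul] at h3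
    rw [h3, nsmul_zero]
  obtain ⟨m, hm⟩ := heven
  have hm2 : N = 2 * m := by omega
  subst hm2
  have hmpos : 1 ≤ m := by
    rcases Nat.eq_zero_or_pos m with rfl | h1
    · exact absurd rfl hN.out
    · exact h1
  have hnc : ∀ (φ : Fin n → ZMod (2 * m)) (i : ZMod (2 * m)),
      {r | φ r = i}.ncard = (univ.filter fun r => φ r = i).card := by
    intro φ i
    rw [← Set.ncard_coe_finset]
    congr 1
    ext r
    simp
  -- the symbols of a block
  have hblock : ∀ i j, blockSymbols L ρ κ i j = {s | σ s = i + j} := by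
    intro i j
    have hsub : blockSymbols L ρ κ i j ⊆ {s | σ s = i + j} := by
      rintro s ⟨r, c, rfl, rfl, rfl⟩
      exact hrel r c
    obtain ⟨r, hr⟩ : (univ.filter fun r => ρ r = i).Nonempty := by
      rw [← Finset.card_pos, hρ]; exact hq
    have hr' : ρ r = i := (Finset.mem_filter.1 hr).2
    have himg : (L r) '' {c | κ c = j} ⊆ blockSymbols L ρ κ i j := by
      rintro s ⟨c, hc, rfl⟩
      exact ⟨r, c, hr', hc, rfl⟩
    apply Set.eq_of_subset_of_ncard_le hsub
    calc {s | σ s = i + j}.ncard = q := by rw [hnc, hσ]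
      _ = {c | κ c = j}.ncard := by rw [hnc, hκ]
      _ = ((L r) '' {c | κ c = j}).ncard := (Set.ncard_image_of_injective _ (hL.1 r).1).symm
      _ ≤ _ := Set.ncard_le_ncard himg
  refine ⟨m, hmpos, q, ρ, κ, hodd, ?_, ?_, ?_, ?_⟩
  · intro i; rw [hnc, hρ]
  · intro i; rw [hnc, hκ]
  · intro i j; rw [hblock, hnc, hσ]
  · intro i j i' j'
    rw [hblock, hblock]
    constructor
    · intro heq
      obtain ⟨s, hs⟩ : (univ.filter fun s => σ s = i + j).Nonempty := by
        rw [← Finset.card_pos, hσ]; exact hq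
      have h1 : σ s = i + j := (Finset.mem_filter.1 hs).2
      have h2' : s ∈ {s | σ s = i' + j'} := heq ▸ h1
      exact h1.symm.trans h2'
    · intro heq; rw [heq]

end Pool.Agent.Results.MP_b7f7f4_co.BlockPattern
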